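import Mathlib

namespace Pool.Agent.Helper379.Div3

open ArithmeticFunction ArithmeticFunction.vonMangoldt Filter Topology

theorem not_summable_inv_primes_mod {q : ℕ} [NeZero q] {a : ZMod q} (ha : IsUnit a) :
    ¬ Summable (fun n : ℕ => if n.Prime ∧ (n : ZMod q) = a then (1 : ℝ) / n else 0) := by
  intro H
  set f : ℕ → ℝ := fun n : ℕ => if n.Prime ∧ (n : ZMod q) = a then (1 : ℝ) / n else 0 with hf
  have hf0 : ∀ n, 0 ≤ f n := by
    intro n; simp only [hf]; split_ifs <;> positivity
  obtain ⟨C, hC⟩ := LSeries_residueClass_lower_bound ha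
  set c : ℝ := (q.totient : ℝ)⁻¹ with hc
  have hcpos : 0 < c := inv_pos.mpr (mod_cast q.totient.pos_of_neZero)
  -- tail small
  obtain ⟨T, hT⟩ := (summable_iff_vanishing_norm.mp H) (c / 2) (by positivity)
  have hnp := summable_residueClass_non_primes_div a
  -- constants
  set C1 : ℝ := ∑' n : ℕ, (if n.Prime then 0 else residueClass a n) / n with hC1
  set C2 : ℝ := ∑ n ∈ T, residueClass a n with hC2
  have key : ∀ x ∈ Set.Ioc (1:ℝ) 2, c / (x - 1) - C ≤ C1 + C2 + (c / 2) / (x - 1) := by
    intro x hx
    refine (hC hx).trans ?_
    have hx1 : 0 < x - 1 := sub_pos.mpr hx.1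
    have hsum : Summable (fun n : ℕ => residueClass a n / (n : ℝ) ^ x) :=
      LSeries.summable_real_of_abscissaOfAbsConv_lt <|
        (abscissaOfAbsConv_residueClass_le_one a).trans_lt <| mod_cast hx.1
    refine hsum.tsum_le_of_sum_le ?_
    intro s
    have hsplit : ∀ n ∈ s, residueClass a n / (n : ℝ) ^ x ≤
        (if n.Prime then 0 else residueClass a n) / n +
        ((if n ∈ T then residueClass a n else 0) + (if n ∉ T then f n / (x - 1) else 0)) := by
      intro n _
      rcases Nat.eq_zero_or_pos n with rfl | hn
      · simp only [residueClass_apply_zero, zero_div]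
        have : 0 ≤ f 0 / (x - 1) := div_nonneg (hf0 0) hx1.le
        split_ifs <;> simp <;> positivity
      · have hn1 : (1:ℝ) ≤ n := by exact_mod_cast hn
        have hnx : (n : ℝ) ≤ (n : ℝ) ^ x := by
          conv_lhs => rw [← Real.rpow_one (n:ℝ)]
          exact Real.rpow_le_rpow_of_exponent_le hn1 hx.1.le
        have hres := residueClass_nonneg a n
        by_cases hp : n.Prime
        · rw [if_pos hp, zero_div, zero_add]
          by_cases hnT : n ∈ T
          · rw [if_pos hnT, if_neg (not_not.mpr hnT), add_zero]
            exact div_le_self hres (hn1.trans hnx)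
          · rw [if_neg hnT, if_pos hnT, zero_add]
            by_cases hna : (n : ZMod q) = a
            · have h1 : f n = 1 / n := by simp only [hf]; rw [if_pos ⟨hp, hna⟩]
              have h2 : residueClass a n = Real.log n := by
                unfold residueClass
                rw [Set.indicator_of_mem (by simpa using hna)]
                exact vonMangoldt_apply_prime hp
              rw [h1, h2]
              have h3 : Real.log n ≤ (n:ℝ) ^ (x - 1) / (x - 1) :=
                Real.log_le_rpow_div (Nat.cast_nonneg n) hx1
              have h4 : (n:ℝ) ^ x = (n:ℝ) ^ (x - 1) * n := by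
                rw [← Real.rpow_add_one (by positivity)]; ring_nf
              rw [h4, div_div, div_le_div_iff₀ (by positivity) (by positivity)]
              rw [le_div_iff₀ hx1] at h3
              have hn0 : (0:ℝ) ≤ n := Nat.cast_nonneg n
              nlinarith
            · have h2 : residueClass a n = 0 := by
                unfold residueClass
                rw [Set.indicator_of_notMem (by simpa using hna)]
              rw [h2, zero_div]
              exact div_nonneg (hf0 n) hx1.le
        · rw [if_neg hp]
          have h1 : residueClass a n / (n : ℝ) ^ x ≤ residueClass a n / n :=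
            div_le_div_of_nonneg_left hres (by linarith) hnx
          have h2 : 0 ≤ ((if n ∈ T then residueClass a n else 0) + (if n ∉ T then f n / (x - 1) else 0)) := by
            have : 0 ≤ f n / (x - 1) := div_nonneg (hf0 n) hx1.le
            split_ifs <;> simp <;> positivity
          linarith
    refine (Finset.sum_le_sum hsplit).trans ?_
    rw [Finset.sum_add_distrib, Finset.sum_add_distrib]
    have e1 : ∑ n ∈ s, (if n.Prime then 0 else residueClass a n) / (n:ℝ) ≤ C1 := by
      refine hnp.sum_le_tsum s ?_
      intro n _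
      split_ifs
      · simp
      · exact div_nonneg (residueClass_nonneg a n) (Nat.cast_nonneg n)
    have e2 : ∑ n ∈ s, (if n ∈ T then residueClass a n else 0) ≤ C2 := by
      rw [← Finset.sum_filter]
      refine Finset.sum_le_sum_of_subset_of_nonneg ?_ (fun i _ _ => residueClass_nonneg a i)
      intro i hi
      exact (Finset.mem_filter.mp hi).2
    have e3 : ∑ n ∈ s, (if n ∉ T then f n / (x - 1) else 0) ≤ (c / 2) / (x - 1) := by
      rw [← Finset.sum_filter, ← Finset.sum_div]
      refine div_le_div_of_nonneg_right ?_ hx1.le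
      have := hT (s.filter (fun n => n ∉ T)) (by
        rw [Finset.disjoint_left]
        intro n hn hnT
        exact (Finset.mem_filter.mp hn).2 hnT)
      exact (le_abs_self _).trans this.le
    linarith
  -- contradiction
  have key2 : ∀ x ∈ Set.Ioc (1:ℝ) 2, (c / 2) ≤ (C + C1 + C2) * (x - 1) := by
    intro x hx
    have hx1 : 0 < x - 1 := sub_pos.mpr hx.1
    have := key x hx
    have h : (c / 2) / (x - 1) ≤ C + C1 + C2 := by
      have : c / (x - 1) = (c/2)/(x-1) + (c/2)/(x-1) := by field_simp; ring
      linarith
    rwa [div_le_iff₀ hx1] at h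
  set M := C + C1 + C2 with hM
  have hMpos : 0 < M := by
    have := key2 2 ⟨by norm_num, le_refl _⟩
    nlinarith
  have h1 : 1 + min 1 (c / (4 * M)) ∈ Set.Ioc (1:ℝ) 2 := by
    constructor
    · have : 0 < min 1 (c / (4 * M)) := lt_min one_pos (by positivity)
      linarith
    · have : min 1 (c / (4 * M)) ≤ 1 := min_le_left _ _
      linarith
  have h2 := key2 _ h1
  have h3 : min 1 (c / (4 * M)) ≤ c / (4 * M) := min_le_right _ _
  have h4 : M * (1 + min 1 (c / (4 * M)) - 1) ≤ c / 4 := by
    have : M * (1 + min 1 (c / (4 * M)) - 1) ≤ M * (c / (4 * M)) := by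
      apply mul_le_mul_of_nonneg_left _ hMpos.le
      linarith
    refine this.trans (le_of_eq ?_)
    field_simp
  linarith

theorem exists_finset_three_mod_four (K : ℝ) :
    ∃ T : Finset ℕ, (∀ p ∈ T, p.Prime ∧ p % 4 = 3) ∧ K ≤ ∑ p ∈ T, (1 : ℝ) / p := by
  by_contra hcon
  push Not at hcon
  have hu : IsUnit (3 : ZMod 4) := by decide
  apply not_summable_inv_primes_mod hu
  refine summable_of_sum_le (c := K) ?_ ?_
  · intro n; dsimp only; split_ifs <;> positivity
  · intro u
    rw [← Finset.sum_filter]
    refine (hcon _ ?_).le
    intro p hp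
    have hp2 := (Finset.mem_filter.mp hp).2
    refine ⟨hp2.1, ?_⟩
    have h3 : (p : ZMod 4) = ((3:ℕ) : ZMod 4) := by simpa using hp2.2
    rw [ZMod.natCast_eq_natCast_iff] at h3
    exact h3

end Pool.Agent.Helper379.Div3
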